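import Pool.Agent.Lib.C58a9d8.Proof

open AddMonoidAlgebra Pool.Agent.Lib.C58a9d8

namespace Pool.Agent.Results.MP_58a9d8_ag.CancellativeIffTerm

/-- Let `S` be a semifield with `a + b ∈ {a, b}` for all `a, b` (for instance a sub-semifield of
the tropical semifield; `a ≤ b` means `a + b = b`), let `v : K → S` be a valuation on a field `K`,
let `M` be a commutative monoid and let `I` be a prime ideal of `K[M]` containing no monomial and
no binomial.  Then an element of `S[M] / Bend (trop I)` is cancellative exactly when it is the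
class of a term `a χᵘ` with `a ≠ 0`. -/
theorem result {S K M : Type*} [Semifield S] [Field K] [AddCommMonoid M]
    (hS : ∀ a b : S, a + b = a ∨ a + b = b)
    (v : K →*₀ S) (hv : ∀ a b : K, v (a + b) + (v a + v b) = v a + v b)
    (I : Ideal (AddMonoidAlgebra K M)) (hI : I.IsPrime)
    (hmon : ∀ (c : K) (u : M), c ≠ 0 → single u c ∉ I)
    (hbin : ∀ (c d : K) (u w : M), c ≠ 0 → d ≠ 0 → u ≠ w → single u c + single w d ∉ I)
    (x : (Bend (trop v '' (I : Set (AddMonoidAlgebra K M)))).Quotient) :
    (∀ g h : (Bend (trop v '' (I : Set (AddMonoidAlgebra K M)))).Quotient,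
      x * g = x * h → g = h) ↔
    ∃ (a : S) (u : M), a ≠ 0 ∧ x = (single u a : AddMonoidAlgebra S M) :=
  main hS v hv I hI hmon hbin x

end Pool.Agent.Results.MP_58a9d8_ag.CancellativeIffTerm
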